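import Pool.Agent.P8H39.FDF.Stm

/-! Project FDF (helper39), package NUM, by helper86. -/

namespace Pool.Agent.P8H86.FDF

open P8H39.FDF

theorem num_poly (x : ℝ) (h0 : 0 ≤ x) (h1 : x ≤ 1) :
    0 ≤ 192/1000 * (1 - x)^3 + 2735/10000 * x^2 - 72/1000 := by
  nlinarith [mul_nonneg (sub_nonneg.2 h1) (sq_nonneg (x - 39/100)),
    sq_nonneg (x - 39/100), mul_nonneg h0 (sub_nonneg.2 h1), mul_nonneg h0 (sq_nonneg (x - 39/100))]

theorem t_NUM : S_NUM := by
  intro s t hs0 hs1 ht
  by_cases h : s ≤ t
  · rw [max_eq_left (by linarith)]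
    have h1 : s^2 ≤ t^2 := by nlinarith
    have h2 : s^3 ≤ 96/1000 * s^2 := by nlinarith [sq_nonneg s]
    nlinarith [sq_nonneg s]
  · push Not at h
    rw [max_eq_right (by linarith)]
    have hs : 0 < s := lt_of_le_of_lt ht h
    obtain ⟨x, rfl⟩ : ∃ x, t = x * s := ⟨t / s, by field_simp⟩
    have hx0 : 0 ≤ x := by
      by_contra hc
      push Not at hc
      nlinarith
    have hx1 : x ≤ 1 := by
      by_contra hc
      push Not at hc
      nlinarith
    have hp := num_poly x hx0 hx1
    have key : 0 ≤ 2 * s * (1 - x)^3 + 2735/10000 * x^2 - 3/4 * s := by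
      have e : 2 * s * (1 - x)^3 + 2735/10000 * x^2 - 3/4 * s =
          (s / (96/1000)) * (192/1000 * (1 - x)^3 + 2735/10000 * x^2 - 72/1000) +
          (1 - s / (96/1000)) * (2735/10000 * x^2) := by ring
      rw [e]
      have h1 : 0 ≤ s / (96/1000) := by positivity
      have h2 : 0 ≤ 1 - s / (96/1000) := by
        rw [sub_nonneg, div_le_one (by norm_num)]
        exact hs1
      positivity
    have := mul_nonneg (sq_nonneg s) key
    nlinarith [this]

end Pool.Agent.P8H86.FDF


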